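import Mathlib

namespace Pool.Agent.Results.MP_57cfa6_lc.Incomplete
open CategoryTheory Limits

/-- Formulas with `n` free variables (de Bruijn) over one sort and no function symbols. -/
inductive Fm : ℕ → Type
  | top {n} : Fm n
  | bot {n} : Fm n
  | eq {n} (i j : Fin n) : Fm n
  | and {n} (φ ψ : Fm n) : Fm n
  | or {n} (φ ψ : Fm n) : Fm n
  | imp {n} (φ ψ : Fm n) : Fm n
  | all {n} (φ : Fm (n + 1)) : Fm n
  | ex {n} (φ : Fm (n + 1)) : Fm n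

/-- Substitution of variables for variables. -/
def Fm.ren : ∀ {n m : ℕ}, (Fin n → Fin m) → Fm n → Fm m
  | _, _, _, top => top
  | _, _, _, bot => bot
  | _, _, r, eq i j => eq (r i) (r j)
  | _, _, r, and φ ψ => and (φ.ren r) (ψ.ren r)
  | _, _, r, or φ ψ => or (φ.ren r) (ψ.ren r)
  | _, _, r, imp φ ψ => imp (φ.ren r) (ψ.ren r)
  | _, _, r, all φ => all (φ.ren (Fin.cons 0 fun i => (r i).succ))
  | _, _, r, ex φ => ex (φ.ren (Fin.cons 0 fun i => (r i).succ))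

/-- Intuitionistic natural deduction with equality, in context. -/
inductive Prf : ∀ {n : ℕ}, List (Fm n) → Fm n → Prop
  | hyp {n} {Γ : List (Fm n)} {φ} : φ ∈ Γ → Prf Γ φ
  | topI {n} {Γ : List (Fm n)} : Prf Γ .top
  | botE {n} {Γ : List (Fm n)} {φ} : Prf Γ .bot → Prf Γ φ
  | andI {n} {Γ : List (Fm n)} {φ ψ} : Prf Γ φ → Prf Γ ψ → Prf Γ (.and φ ψ)
  | andL {n} {Γ : List (Fm n)} {φ ψ} : Prf Γ (.and φ ψ) → Prf Γ φ
  | andR {n} {Γ : List (Fm n)} {φ ψ} : Prf Γ (.and φ ψ) → Prf Γ ψ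
  | orL {n} {Γ : List (Fm n)} {φ ψ} : Prf Γ φ → Prf Γ (.or φ ψ)
  | orR {n} {Γ : List (Fm n)} {φ ψ} : Prf Γ ψ → Prf Γ (.or φ ψ)
  | orE {n} {Γ : List (Fm n)} {φ ψ χ} :
      Prf Γ (.or φ ψ) → Prf (φ :: Γ) χ → Prf (ψ :: Γ) χ → Prf Γ χ
  | impI {n} {Γ : List (Fm n)} {φ ψ} : Prf (φ :: Γ) ψ → Prf Γ (.imp φ ψ)
  | impE {n} {Γ : List (Fm n)} {φ ψ} : Prf Γ (.imp φ ψ) → Prf Γ φ → Prf Γ ψ
  | allI {n} {Γ : List (Fm n)} {φ} : Prf (Γ.map (.ren .succ)) φ → Prf Γ (.all φ)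
  | allE {n} {Γ : List (Fm n)} {φ} (i) : Prf Γ (.all φ) → Prf Γ (φ.ren (Fin.cons i id))
  | exI {n} {Γ : List (Fm n)} {φ} (i) : Prf Γ (φ.ren (Fin.cons i id)) → Prf Γ (.ex φ)
  | exE {n} {Γ : List (Fm n)} {φ ψ} :
      Prf Γ (.ex φ) → Prf (φ :: Γ.map (.ren .succ)) (ψ.ren .succ) → Prf Γ ψ
  | refl {n} {Γ : List (Fm n)} (i) : Prf Γ (.eq i i)
  | subst {n} {Γ : List (Fm n)} (φ : Fm (n + 1)) {i j} :
      Prf Γ (.eq i j) → Prf Γ (φ.ren (Fin.cons i id)) → Prf Γ (φ.ren (Fin.cons j id))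

theorem expAdj {X : SSet.{0}} (P : Over X) : (prod.functor.obj P).IsLeftAdjoint := by
  let := Over.cartesianMonoidalCategory X
  let : MonoidalClosed (Over X) :=
    cartesianClosedOfEquiv (overEquivPresheafCostructuredArrow X).symm
  exact Functor.isLeftAdjoint_of_iso (CartesianMonoidalCategory.tensorLeftIsoProd P)

theorem allAdj {X Y : SSet.{0}} (f : X ⟶ Y) : (Over.pullback f).IsLeftAdjoint := by
  let := Over.cartesianMonoidalCategory Y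
  let : MonoidalClosed (Over Y) :=
    cartesianClosedOfEquiv (overEquivPresheafCostructuredArrow Y).symm
  let := Over.braidedCategory Y
  let := ChosenPullbacksAlong.ofHasPullbacksAlong (curryRightUnitorHom (Over.mk f))
  have := (Over.toOverSectionsAdj (Over.mk f)).isLeftAdjoint
  have := (Over.mk f).iteratedSliceEquiv.toAdjunction.isLeftAdjoint
  exact Functor.isLeftAdjoint_of_iso (Adjunction.rightAdjointUniq
    ((Over.mk f).iteratedSliceEquiv.symm.toAdjunction.comp (forgetAdjToOver (Over.mk f)))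
    (Over.mapPullbackAdj f))

/-- The interpretation `X × ⋯ × X` of the context of length `n`. -/
noncomputable def ctx (X : SSet.{0}) : ℕ → SSet.{0}
  | 0 => ⊤_ _
  | n + 1 => ctx X n ⨯ X

noncomputable def var (X : SSet.{0}) : ∀ {n : ℕ}, Fin n → (ctx X n ⟶ X)
  | 0, i => i.elim0
  | _ + 1, i => Fin.cases prod.snd (fun j => prod.fst ≫ var X j) i

/-- The endpoint maps of the path space. -/
noncomputable def endpt (X : SSet.{0}) (k : Fin 2) : (ihom (SSet.stdSimplex.obj (.mk 1))).obj X ⟶ X :=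
  CartesianMonoidalCategory.lift (SSet.const (SSet.stdSimplex.obj₀Equiv.symm k)) (𝟙 _) ≫
    (ihom.ev (SSet.stdSimplex.obj (.mk 1))).app X

noncomputable def interp (X : SSet.{0}) : ∀ {n : ℕ}, Fm n → Over (ctx X n)
  | _, .top => Over.mk (𝟙 _)
  | _, .bot => Over.mk (initial.to _)
  | _, .eq i j => (Over.pullback (prod.lift (var X i) (var X j))).obj
      (Over.mk (prod.lift (endpt X 0) (endpt X 1)))
  | _, .and φ ψ => interp X φ ⨯ interp X ψ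
  | _, .or φ ψ => interp X φ ⨿ interp X ψ
  | _, .imp φ ψ => (@Functor.rightAdjoint _ _ _ _ _ (expAdj (interp X φ))).obj (interp X ψ)
  | _, .all φ => (@Functor.rightAdjoint _ _ _ _ _ (allAdj prod.fst)).obj (interp X φ)
  | _, .ex φ => (Over.map prod.fst).obj (interp X φ)

theorem lem (X : SSet.{0}) (ψ : Fm 0) :
    Nonempty ((interp X (.or ψ (.imp ψ .bot))).left.obj (.op (.mk 0))) := by
  by_cases h : Nonempty ((interp X ψ).left.obj (.op (.mk 0)))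
  · exact h.map ((coprod.inl : interp X ψ ⟶ interp X ψ ⨿ interp X (.imp ψ .bot)).left.app _)
  · have := expAdj (interp X ψ)
    let T : Over (ctx X 0) := Over.mk (terminal.from (SSet.stdSimplex.obj (.mk 0)))
    have he : ∀ m, IsEmpty ((interp X ψ ⨯ T).left.obj m) := fun m => ⟨fun x => h
      ⟨(interp X ψ).left.map (SimplexCategory.const _ m.unop 0).op ((prod.fst : interp X ψ ⨯ T ⟶ _).left.app _ x)⟩⟩
    let u : interp X ψ ⨯ T ⟶ interp X .bot := Over.homMk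
      { app := fun m => TypeCat.ofHom fun x => (he m).elim x
        naturality := fun m _ _ => by ext x; exact (he m).elim x } (terminal.hom_ext _ _)
    exact ⟨(coprod.inr : _ ⟶ interp X ψ ⨿ interp X (.imp ψ .bot)).left.app _
      (((Adjunction.ofIsLeftAdjoint (prod.functor.obj (interp X ψ))).homEquiv _ _ u).left.app _
        (SSet.stdSimplex.obj₀Equiv.symm 0))⟩

def t : ∀ {n : ℕ}, Fm n → Prop
  | _, .top => True
  | _, .bot => False
  | _, .eq _ _ => True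
  | _, .and φ ψ => t φ ∧ t ψ
  | _, .or φ ψ => t φ ∨ t ψ
  | _, .imp φ ψ => t φ → t ψ
  | _, .all φ => t φ
  | _, .ex φ => t φ

def f : ∀ {n : ℕ}, Fm n → (Fin n → Bool) → Prop
  | _, .top, _ => True
  | _, .bot, _ => False
  | _, .eq i j, ρ => ρ i = ρ j
  | _, .and φ ψ, ρ => f φ ρ ∧ f ψ ρ
  | _, .or φ ψ, ρ => f φ ρ ∨ f ψ ρ
  | _, .imp φ ψ, ρ => (f φ ρ → f ψ ρ) ∧ (t φ → t ψ)
  | _, .all φ, ρ => ∀ b, f φ (Fin.cons b ρ)
  | _, .ex φ, ρ => ∃ b, f φ (Fin.cons b ρ)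

theorem t_ren {n : ℕ} (φ : Fm n) : ∀ {m : ℕ} (r : Fin n → Fin m), t (φ.ren r) ↔ t φ := by
  induction φ <;> intro m r <;> simp only [Fm.ren, t, *]

theorem f_ren {n : ℕ} (φ : Fm n) : ∀ {m : ℕ} (r : Fin n → Fin m) (ρ : Fin m → Bool),
    f (φ.ren r) ρ ↔ f φ (ρ ∘ r) := by
  have : ∀ {n m : ℕ} (r : Fin n → Fin m) (ρ : Fin m → Bool) (b : Bool),
      (Fin.cons b ρ : Fin (m + 1) → Bool) ∘ (Fin.cons 0 fun i => (r i).succ : Fin (n + 1) → _) =
        Fin.cons b (ρ ∘ r) := fun r ρ b => funext fun i => Fin.cases rfl (fun _ => rfl) i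
  induction φ <;> intro m r ρ <;> simp only [Fm.ren, f, t_ren, Function.comp_apply, *]

theorem f_t {n : ℕ} (φ : Fm n) : ∀ ρ, f φ ρ → t φ := by
  induction φ with
  | top => exact fun _ _ => trivial
  | bot => exact fun _ h => h
  | eq => exact fun _ _ => trivial
  | and _ _ h1 h2 => exact fun ρ h => ⟨h1 ρ h.1, h2 ρ h.2⟩
  | or _ _ h1 h2 => exact fun ρ h => h.imp (h1 ρ) (h2 ρ)
  | imp => exact fun _ h => h.2
  | all _ h1 => exact fun _ h => h1 _ (h true)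
  | ex _ h1 => exact fun _ ⟨_, h⟩ => h1 _ h

theorem sound_t {n : ℕ} {Γ : List (Fm n)} {φ : Fm n} (h : Prf Γ φ) : (∀ ψ ∈ Γ, t ψ) → t φ := by
  induction h with
  | hyp h => exact fun hΓ => hΓ _ h
  | topI => exact fun _ => trivial
  | refl => exact fun _ => trivial
  | _ =>
    intro hΓ
    simp only [t, t_ren, List.forall_mem_cons, List.forall_mem_map] at *
    tauto

theorem sound {n : ℕ} {Γ : List (Fm n)} {φ : Fm n} (h : Prf Γ φ) :
    ∀ ρ, (∀ ψ ∈ Γ, f ψ ρ) → f φ ρ := by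
  have c1 : ∀ {n : ℕ} (φ : Fm (n + 1)) (ρ : Fin n → Bool) (i : Fin n),
      f (φ.ren (Fin.cons i id)) ρ ↔ f φ (Fin.cons (ρ i) ρ) := fun φ ρ i => by
    rw [f_ren]
    exact iff_of_eq (congrArg _ (funext fun j => Fin.cases rfl (fun _ => rfl) j))
  induction h with
  | hyp h => exact fun ρ hΓ => hΓ _ h
  | topI => exact fun _ _ => trivial
  | botE _ ih => exact fun ρ hΓ => (ih ρ hΓ).elim
  | andI _ _ ih ih' => exact fun ρ hΓ => ⟨ih ρ hΓ, ih' ρ hΓ⟩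
  | andL _ ih => exact fun ρ hΓ => (ih ρ hΓ).1
  | andR _ ih => exact fun ρ hΓ => (ih ρ hΓ).2
  | orL _ ih => exact fun ρ hΓ => .inl (ih ρ hΓ)
  | orR _ ih => exact fun ρ hΓ => .inr (ih ρ hΓ)
  | orE _ _ _ ih i1 i2 =>
    exact fun ρ hΓ => (ih ρ hΓ).elim (fun h => i1 ρ (List.forall_mem_cons.2 ⟨h, hΓ⟩))
      fun h => i2 ρ (List.forall_mem_cons.2 ⟨h, hΓ⟩)
  | impI h ih =>
    exact fun ρ hΓ => ⟨fun h' => ih ρ (List.forall_mem_cons.2 ⟨h', hΓ⟩), fun h' => sound_t h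
      (List.forall_mem_cons.2 ⟨h', fun ψ hψ => f_t ψ ρ (hΓ ψ hψ)⟩)⟩
  | impE _ _ ih ih' => exact fun ρ hΓ => (ih ρ hΓ).1 (ih' ρ hΓ)
  | allI _ ih =>
    exact fun ρ hΓ b => ih _ (List.forall_mem_map.2 fun ψ hψ => (f_ren _ _ _).2 (hΓ ψ hψ))
  | allE i _ ih => exact fun ρ hΓ => (c1 _ _ _).2 (ih ρ hΓ _)
  | exI i _ ih => exact fun ρ hΓ => ⟨_, (c1 _ _ _).1 (ih ρ hΓ)⟩
  | exE _ _ ih ih' =>
    intro ρ hΓ
    obtain ⟨b, hb⟩ := ih ρ hΓ
    exact (f_ren _ Fin.succ (Fin.cons b ρ)).1 (ih' _ (List.forall_mem_cons.2 ⟨hb,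
      List.forall_mem_map.2 fun ψ hψ => (f_ren _ _ _).2 (hΓ ψ hψ)⟩))
  | refl => exact fun _ _ => rfl
  | subst φ _ _ ih ih' =>
    exact fun ρ hΓ => (c1 _ _ _).2 ((show _ = _ from ih ρ hΓ) ▸ (c1 _ _ _).1 (ih' ρ hΓ))

theorem result : ∃ φ : Fm 0, ¬ Prf [] φ ∧ ¬ Prf [.ex .top] φ ∧
    ∀ X : SSet.{0}, X.KanComplex → Nonempty ((interp X φ).left.obj (.op (.mk 0))) := by
  have h : ∀ Γ : List (Fm 0), (∀ ψ ∈ Γ, f ψ Fin.elim0) → ¬ Prf Γ (.or (.all (.all (.eq 0 1)))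
      (.imp (.all (.all (.eq 0 1))) .bot)) := fun Γ hΓ h => by
    rcases sound h _ hΓ with h | h
    · exact Bool.noConfusion (h true false)
    · exact h.2 trivial
  exact ⟨_, h _ (by simp), h _ (by simp [f]), fun X _ => lem X _⟩

end Pool.Agent.Results.MP_57cfa6_lc.Incomplete
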